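import Mathlib
import Pool.Agent.W36.GK.K21
import Pool.Agent.H499R2.NDWord

/-! Points of boxes in residue classes modulo powers of two at which linear forms have values in
invariant sets. -/

set_option autoImplicit false

namespace Pool.Agent.TH465.EX
open Finset Filter Topology
open Pool.Agent.W36.GK (dot box mem_box Indep Cn count Sm dot_add)
open Pool.Agent.H499R2.ND (Tn Td Bdd Bdd_inv AK AK_mod AK_of_bound rK rK_ge rK_nonneg Dn Inv)

/-- the residue condition at an integer -/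
def AZ (K : ℕ) (lam : ℝ) (n : ℤ) : Prop := AK K lam (n % (2 ^ K : ℕ)).toNat

lemma toNat_mod {n : ℤ} (hn : 0 ≤ n) (q : ℕ) : (n % (q : ℤ)).toNat = n.toNat % q := by
  obtain ⟨m, rfl⟩ : ∃ m : ℕ, n = m := ⟨n.toNat, by omega⟩
  rw [Int.toNat_natCast, ← Int.natCast_mod, Int.toNat_natCast]

lemma AZ_nat {K : ℕ} {lam : ℝ} {n : ℤ} (hn : 0 < n) : AZ K lam n ↔ AK K lam n.toNat := by
  unfold AZ
  rw [toNat_mod hn.le, AK_mod]

lemma AZ_congr {K : ℕ} {lam : ℝ} {n m : ℤ} (h : n % (2 ^ K : ℕ) = m % (2 ^ K : ℕ)) : AZ K lam n ↔ AZ K lam m := by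
  unfold AZ; rw [h]

open Classical in
/-- the region -/
noncomputable def rg {D r : ℕ} (Λ : Fin r → Fin D → ℤ) (c : Fin r → ℤ) (M N : Fin r → ℕ) (P P' : Fin D → ℤ) :
    Finset (Fin D → ℤ) :=
  (box P P').filter (fun v => ∀ i, (M i : ℤ) < dot (Λ i) v + c i ∧ dot (Λ i) v + c i ≤ N i)

lemma mem_rg {D r : ℕ} {Λ : Fin r → Fin D → ℤ} {c : Fin r → ℤ} {M N : Fin r → ℕ} {P P' : Fin D → ℤ} {v : Fin D → ℤ} :
    v ∈ rg Λ c M N P P' ↔ (∀ j, P j < v j ∧ v j ≤ P' j) ∧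
      ∀ i, (M i : ℤ) < dot (Λ i) v + c i ∧ dot (Λ i) v + c i ≤ N i := by
  unfold rg
  rw [mem_filter, mem_box]

open Classical in
lemma Cn_rg {D r : ℕ} (Λ : Fin r → Fin D → ℤ) (c : Fin r → ℤ) (M N : Fin r → ℕ) (P P' : Fin D → ℤ) (S : Fin r → Set ℤ) :
    Cn Λ c (fun _ => 1) M N P P' S = ((rg Λ c M N P P').filter (fun v => ∀ i, dot (Λ i) v + c i ∈ S i)).card := by
  unfold Cn
  rw [← Set.ncard_coe_finset]
  congr 1
  ext v
  rw [mem_coe, mem_filter, mem_rg]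
  simp only [Set.mem_ofPred_eq, one_mul]
  unfold dot
  constructor
  · rintro ⟨h1, h2⟩
    exact ⟨⟨h1, fun i => ⟨(h2 i).2.1, (h2 i).2.2⟩⟩, fun i => (h2 i).1⟩
  · rintro ⟨⟨h1, h2⟩, h3⟩
    exact ⟨h1, fun i => ⟨h3 i, (h2 i).1, (h2 i).2⟩⟩

/-- residues -/
noncomputable def WW (D q : ℕ) : Finset (Fin D → ℤ) := Fintype.piFinset (fun _ => Ico (0 : ℤ) q)

lemma WW_card (D q : ℕ) : (WW D q).card = q ^ D := by
  unfold WW
  rw [Fintype.card_piFinset]
  simp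

lemma dot_class {D : ℕ} (a u w : Fin D → ℤ) (q : ℤ) :
    dot a (fun j => q * u j + w j) = dot (fun j => q * a j) u + dot a w := by
  unfold dot
  rw [← sum_add_distrib]
  apply sum_congr rfl
  intro j _
  ring

open Classical in
lemma class_card {D r : ℕ} (Λ : Fin r → Fin D → ℤ) (c : Fin r → ℤ) (M N : Fin r → ℕ) (P P' : Fin D → ℤ) (S : Fin r → Set ℤ)
    {q : ℕ} (hq : 0 < q) {w : Fin D → ℤ} (hw : w ∈ WW D q) :
    ((rg Λ c M N P P').filter (fun v => (∀ i, dot (Λ i) v + c i ∈ S i) ∧ (fun j => v j % (q : ℤ)) = w)).card =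
      Cn (fun i j => (q : ℤ) * Λ i j) (fun i => dot (Λ i) w + c i) (fun _ => 1) M N
        (fun j => (P j - w j) / q) (fun j => (P' j - w j) / q) S := by
  have hq' : (0 : ℤ) < q := by exact_mod_cast hq
  rw [Cn_rg]
  symm
  have hval : ∀ (u : Fin D → ℤ) (i : Fin r), dot (Λ i) (fun j => (q : ℤ) * u j + w j) + c i =
      dot (fun j => (q : ℤ) * Λ i j) u + (dot (Λ i) w + c i) := by
    intro u i
    rw [dot_class]; ring
  have hbox : ∀ (u : Fin D → ℤ) (j : Fin D), ((P j - w j) / q < u j ∧ u j ≤ (P' j - w j) / q) ↔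
      (P j < (q : ℤ) * u j + w j ∧ (q : ℤ) * u j + w j ≤ P' j) := by
    intro u j
    rw [Int.ediv_lt_iff_lt_mul hq', Int.le_ediv_iff_mul_le hq']
    constructor
    · rintro ⟨h1, h2⟩
      constructor <;> linarith [mul_comm (u j) (q : ℤ)]
    · rintro ⟨h1, h2⟩
      constructor <;> linarith [mul_comm (u j) (q : ℤ)]
  apply card_bij (fun (u : Fin D → ℤ) _ => fun j => (q : ℤ) * u j + w j)
  · intro u hu
    rw [mem_filter, mem_rg] at hu ⊢
    obtain ⟨⟨h1, h2⟩, h3⟩ := hu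
    refine ⟨⟨fun j => (hbox u j).1 (h1 j), fun i => ?_⟩, fun i => ?_, ?_⟩
    · rw [hval]; exact h2 i
    · rw [hval]; exact h3 i
    · ext j
      have hwj := mem_Ico.1 (Fintype.mem_piFinset.1 hw j)
      show ((q : ℤ) * u j + w j) % (q : ℤ) = w j
      rw [Int.mul_add_emod_self_left]
      exact Int.emod_eq_of_lt hwj.1 hwj.2
  · intro u _ u' _ h
    ext j
    have h1 : (q : ℤ) * u j + w j = q * u' j + w j := congrFun h j
    have h2 : (q : ℤ) * u j = q * u' j := by linarith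
    exact mul_left_cancel₀ hq'.ne' h2
  · intro v hv
    rw [mem_filter, mem_rg] at hv
    obtain ⟨⟨h1, h2⟩, h3, h4⟩ := hv
    have hv' : (fun j => (q : ℤ) * (v j / q) + w j) = v := by
      ext j
      rw [← h4]
      exact Int.mul_ediv_add_emod (v j) q
    refine ⟨fun j => v j / q, ?_, hv'⟩
    rw [mem_filter, mem_rg]
    refine ⟨⟨fun j => ?_, fun i => ?_⟩, fun i => ?_⟩
    · refine (hbox (fun j => v j / (q : ℤ)) j).2 ?_
      have h5 : (q : ℤ) * (v j / q) + w j = v j := congrFun hv' j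
      rw [h5]
      exact h1 j
    · rw [← hval, hv']; exact h2 i
    · rw [← hval, hv']; exact h3 i

/-- the admissible residues -/
def Good {D r : ℕ} (Λ : Fin r → Fin D → ℤ) (c : Fin r → ℤ) (K : ℕ) (lam : Fin r → ℝ) (w : Fin D → ℤ) : Prop :=
  ∀ i, AZ K (lam i) (dot (Λ i) w + c i)

lemma Good_mod {D r : ℕ} (Λ : Fin r → Fin D → ℤ) (c : Fin r → ℤ) (K : ℕ) (lam : Fin r → ℝ) (v : Fin D → ℤ) :
    Good Λ c K lam v ↔ Good Λ c K lam (fun j => v j % ((2 ^ K : ℕ) : ℤ)) := by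
  unfold Good
  refine forall_congr' fun i => AZ_congr ?_
  have h1 : dot (Λ i) v = dot (fun j => ((2 ^ K : ℕ) : ℤ) * Λ i j) (fun j => v j / ((2 ^ K : ℕ) : ℤ)) +
      dot (Λ i) (fun j => v j % ((2 ^ K : ℕ) : ℤ)) := by
    rw [← dot_class]
    congr 1
    ext j
    exact (Int.mul_ediv_add_emod (v j) _).symm
  have h2 : dot (fun j => ((2 ^ K : ℕ) : ℤ) * Λ i j) (fun j => v j / ((2 ^ K : ℕ) : ℤ)) =
      ((2 ^ K : ℕ) : ℤ) * dot (Λ i) (fun j => v j / ((2 ^ K : ℕ) : ℤ)) := by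
    unfold dot
    rw [mul_sum]
    apply sum_congr rfl
    intro j _; ring
  rw [h1, h2, add_assoc, Int.mul_add_emod_self_left]

open Classical in
lemma sum_classes {D r : ℕ} (Λ : Fin r → Fin D → ℤ) (c : Fin r → ℤ) (M N : Fin r → ℕ) (P P' : Fin D → ℤ) (S : Fin r → Set ℤ)
    (K : ℕ) (lam : Fin r → ℝ) :
    ((rg Λ c M N P P').filter (fun v => (∀ i, dot (Λ i) v + c i ∈ S i) ∧ Good Λ c K lam v)).card =
      ∑ w ∈ (WW D (2 ^ K)).filter (Good Λ c K lam),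
        Cn (fun i j => ((2 ^ K : ℕ) : ℤ) * Λ i j) (fun i => dot (Λ i) w + c i) (fun _ => 1) M N
        (fun j => (P j - w j) / ((2 ^ K : ℕ) : ℤ)) (fun j => (P' j - w j) / ((2 ^ K : ℕ) : ℤ)) S := by
  have hq : 0 < 2 ^ K := by positivity
  have hq' : (0 : ℤ) < ((2 ^ K : ℕ) : ℤ) := by exact_mod_cast hq
  rw [card_eq_sum_card_fiberwise (f := fun v : Fin D → ℤ => fun j => v j % ((2 ^ K : ℕ) : ℤ))
    (t := (WW D (2 ^ K)).filter (Good Λ c K lam))]
  · apply sum_congr rfl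
    intro w hw
    rw [mem_filter] at hw
    rw [← class_card Λ c M N P P' S hq hw.1, filter_filter]
    congr 1
    apply filter_congr
    intro v _
    constructor
    · rintro ⟨⟨h1, _⟩, h2⟩; exact ⟨h1, h2⟩
    · rintro ⟨h1, h2⟩
      refine ⟨⟨h1, ?_⟩, h2⟩
      rw [Good_mod, h2]; exact hw.2
  · intro v hv
    rw [mem_coe, mem_filter] at hv
    rw [mem_coe, mem_filter]
    refine ⟨?_, (Good_mod Λ c K lam v).1 hv.2.2⟩
    unfold WW
    rw [Fintype.mem_piFinset]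
    intro j
    rw [mem_Ico]
    exact ⟨Int.emod_nonneg _ hq'.ne', Int.emod_lt_of_pos _ hq'⟩

lemma div_box {a b : ℤ} {X q : ℕ} (hq : 0 < q) (h : b - a ≤ X) : b / (q : ℤ) - a / (q : ℤ) ≤ X := by
  have hq' : (0 : ℤ) < q := by exact_mod_cast hq
  have h1 : b ≤ a + (q : ℤ) * X := by
    have : (X : ℤ) ≤ q * X := by nlinarith
    linarith
  have h2 : b / (q : ℤ) ≤ (a + (q : ℤ) * X) / (q : ℤ) := Int.ediv_le_ediv hq' h1
  rw [Int.add_mul_ediv_left _ _ hq'.ne'] at h2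
  linarith

/-- counting in classes -/
theorem classes {D r : ℕ} {Λ : Fin r → Fin D → ℤ} (h0 : ∀ i, Λ i ≠ 0) (hΛ : ∀ i j, i ≠ j → Indep (Λ i) (Λ j))
    (hsm : ∀ s : ℤ, (s = 1 ∨ s = -1) → Sm (r + 1) (Pool.Agent.W36.GU.Bal s)) (K : ℕ) {ε : ℝ} (hε : 0 < ε) :
    ∃ X0 : ℕ, ∀ S : Fin r → Set ℤ, (∀ i, Inv 1 (S i)) → ∀ δ : Fin r → ℝ,
      (∀ i, Pool.Agent.H499R2.ND.HD 1 (S i) (δ i)) → ∀ X : ℕ, X0 ≤ X → ∀ lam : Fin r → ℝ,
      ∀ c : Fin r → ℤ, ∀ M N : Fin r → ℕ, (∀ i, M i ≤ N i) → (∀ i, N i ≤ X) → ∀ P P' : Fin D → ℤ, (∀ j, P' j - P j ≤ X) →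
      |((open Classical in ((rg Λ c M N P P').filter (fun v => (∀ i, dot (Λ i) v + c i ∈ S i) ∧ Good Λ c K lam v)).card : ℕ) : ℝ) -
        (∏ i, δ i) * ((open Classical in ((rg Λ c M N P P').filter (fun v => Good Λ c K lam v)).card : ℕ) : ℝ)| ≤ ε * (X : ℝ) ^ D := by
  classical
  have hq : 0 < 2 ^ K := by positivity
  have hqz : ((2 ^ K : ℕ) : ℤ) ≠ 0 := by exact_mod_cast hq.ne'
  have hWp : (0 : ℝ) < ((2 ^ K) ^ D : ℕ) := by positivity
  obtain ⟨X0, h⟩ := count hsm (fun i j => ((2 ^ K : ℕ) : ℤ) * Λ i j) (by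
    intro i h1
    apply h0 i
    ext j
    have := congrFun h1 j
    simp only [Pi.zero_apply] at this
    exact (mul_eq_zero.1 this).resolve_left hqz) (by
    intro i j hij a b hab
    have h1 := hΛ i j hij (a * ((2 ^ K : ℕ) : ℤ)) (b * ((2 ^ K : ℕ) : ℤ)) (by
      ext l
      have := congrFun hab l
      simp only [Pi.smul_apply, smul_eq_mul] at this ⊢
      linarith)
    exact ⟨(mul_eq_zero.1 h1.1).resolve_right hqz, (mul_eq_zero.1 h1.2).resolve_right hqz⟩)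
    (s := fun _ => 1) (fun _ => Or.inl rfl) (ε := ε / ((2 ^ K) ^ D : ℕ)) (div_pos hε hWp)
  refine ⟨X0, fun S hS δ hδ X hX lam c M N hM hN P P' hP => ?_⟩
  have e1 := sum_classes Λ c M N P P' S K lam
  have e2 := sum_classes Λ c M N P P' (fun _ => Set.univ) K lam
  simp only [Set.mem_univ, implies_true, true_and] at e2
  rw [e1, e2]
  push_cast [Nat.cast_sum]
  rw [mul_sum, ← sum_sub_distrib]
  refine (abs_sum_le_sum_abs _ _).trans ?_
  have h3 : ∀ w ∈ (WW D (2 ^ K)).filter (Good Λ c K lam),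
      |(Cn (fun i j => (2 ^ K : ℤ) * Λ i j) (fun i => dot (Λ i) w + c i) (fun _ => 1) M N
        (fun j => (P j - w j) / (2 ^ K : ℤ)) (fun j => (P' j - w j) / (2 ^ K : ℤ)) S : ℝ) -
      (∏ i, δ i) * (Cn (fun i j => (2 ^ K : ℤ) * Λ i j) (fun i => dot (Λ i) w + c i) (fun _ => 1) M N
        (fun j => (P j - w j) / (2 ^ K : ℤ)) (fun j => (P' j - w j) / (2 ^ K : ℤ)) (fun _ => Set.univ) : ℝ)| ≤
        ε / ((2 ^ K) ^ D : ℕ) * (X : ℝ) ^ D := by
    intro w _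
    have h4 := h S hS δ hδ X hX (fun i => dot (Λ i) w + c i) M N hM hN
      (fun j => (P j - w j) / ((2 ^ K : ℕ) : ℤ)) (fun j => (P' j - w j) / ((2 ^ K : ℕ) : ℤ))
      (fun j => div_box hq (by have := hP j; linarith))
    push_cast at h4 ⊢
    exact h4
  refine (sum_le_sum h3).trans ?_
  rw [sum_const, nsmul_eq_mul]
  have h5 : (((WW D (2 ^ K)).filter (Good Λ c K lam)).card : ℝ) ≤ ((2 ^ K) ^ D : ℕ) := by
    have := card_filter_le (WW D (2 ^ K)) (Good Λ c K lam)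
    rw [WW_card] at this
    exact_mod_cast this
  calc (((WW D (2 ^ K)).filter (Good Λ c K lam)).card : ℝ) * (ε / ((2 ^ K) ^ D : ℕ) * (X : ℝ) ^ D)
      ≤ ((2 ^ K) ^ D : ℕ) * (ε / ((2 ^ K) ^ D : ℕ) * (X : ℝ) ^ D) := mul_le_mul_of_nonneg_right h5 (by positivity)
    _ = ε * (X : ℝ) ^ D := by field_simp

end Pool.Agent.TH465.EX
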