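import Mathlib
import Pool.Agent.TH465.EX.A

/-! The joint law of the maximum excursions along linear forms. -/

set_option autoImplicit false

namespace Pool.Agent.TH465.EX
open Finset Filter Topology
open Pool.Agent.W36.GK (dot box mem_box Indep Cn count Sm dot_add box_fiber)
open Pool.Agent.H499R2.ND (Tn Td Bdd Bdd_inv AK AK_mod AK_of_bound rK rK_ge rK_nonneg Dn Inv)

/-- the excursion of a positive integer is at most `lam` times the integer -/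
def Ex (lam : ℝ) (n : ℤ) : Prop := 0 < n ∧ ∀ k, ((Tn^[k] n.toNat : ℕ) : ℝ) ≤ lam * (n.toNat : ℝ)

/-- the exceptional set -/
def BB (K : ℕ) (lam : ℝ) (n : ℕ) : Prop := (AK K lam n ∧ Bdd n) ∧ ¬ ∀ k, ((Tn^[k] n : ℕ) : ℝ) ≤ lam * n

theorem exc_small {β : ℝ} (hβ : Dn Bdd β) {lam : ℝ} (hl : 1 ≤ lam) {ε : ℝ} (hε : 0 < ε) : ∃ K0 : ℕ, ∀ K : ℕ, K0 ≤ K →
    ∃ N0 : ℕ, ∀ N : ℕ, N0 ≤ N → Pool.Agent.H499R2.ND.cnt (BB K lam) N ≤ ε * N := by
  obtain ⟨q, h1, _, _, h4⟩ := Pool.Agent.H499R2.ND.exc_law hβ hl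
  have h2 : Tendsto (fun K => rK K lam * β - β * q) atTop (𝓝 0) := by
    have := (h1.mul_const β).sub_const (β * q)
    rwa [mul_comm q β, sub_self] at this
  obtain ⟨K0, hK0⟩ := eventually_atTop.1 (h2.eventually (gt_mem_nhds hε))
  refine ⟨K0, fun K hK => ?_⟩
  have h3 := (Pool.Agent.H499R2.ND.dn_AK Bdd_inv hβ K lam).sub h4
  obtain ⟨N1, hN1⟩ := eventually_atTop.1 (h3.eventually (gt_mem_nhds (hK0 K hK)))
  refine ⟨N1 + 1, fun N hN => ?_⟩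
  have g := hN1 N (by omega)
  have hNR : (0 : ℝ) < N := by exact_mod_cast (by omega : 0 < N)
  have i3 : Pool.Agent.H499R2.ND.cnt (BB K lam) N + Pool.Agent.H499R2.ND.cnt (fun n => ∀ k, ((Tn^[k] n : ℕ) : ℝ) ≤ lam * n) N
      = Pool.Agent.H499R2.ND.cnt (fun n => AK K lam n ∧ Bdd n) N := by
    unfold Pool.Agent.H499R2.ND.cnt BB
    have hf : ∀ R : ℕ → Prop, {n : ℕ | 1 ≤ n ∧ n ≤ N ∧ R n}.Finite := fun R =>
      (Set.finite_Icc 1 N).subset fun n hn => ⟨hn.1, hn.2.1⟩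
    have e : {n : ℕ | 1 ≤ n ∧ n ≤ N ∧ (AK K lam n ∧ Bdd n)}
        = {n : ℕ | 1 ≤ n ∧ n ≤ N ∧ ((AK K lam n ∧ Bdd n) ∧ ¬ ∀ k, ((Tn^[k] n : ℕ) : ℝ) ≤ lam * n)}
          ∪ {n : ℕ | 1 ≤ n ∧ n ≤ N ∧ ∀ k, ((Tn^[k] n : ℕ) : ℝ) ≤ lam * n} := by
      ext n
      constructor
      · rintro ⟨h1, h2, h3⟩
        by_cases h5 : ∀ k, ((Tn^[k] n : ℕ) : ℝ) ≤ lam * n
        · exact Or.inr ⟨h1, h2, h5⟩
        · exact Or.inl ⟨h1, h2, h3, h5⟩
      · rintro (⟨h1, h2, h3, _⟩ | ⟨h1, h2, h3⟩)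
        · exact ⟨h1, h2, h3⟩
        · exact ⟨h1, h2, AK_of_bound hl h1 h3 K, ⌊lam * n⌋₊, fun k => Nat.le_floor (h3 k)⟩
    rw [e, Set.ncard_union_eq _ (hf _) (hf _)]
    · push_cast; ring
    · rw [Set.disjoint_left]
      rintro n ⟨_, _, _, h3⟩ ⟨_, _, h4⟩
      exact h3 h4
  rw [← sub_div, div_lt_iff₀ hNR] at g
  linarith

open Classical in
lemma fib {D N : ℕ} {P P' : Fin (D + 1) → ℤ} (hP : ∀ j, P' j - P j ≤ N) {b : Fin (D + 1) → ℤ} (hb : b ≠ 0) (c : ℤ) (Z : Finset ℤ) :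
    ((box P P').filter (fun x => dot b x + c ∈ Z)).card ≤ Z.card * N ^ D := by
  have h1 : (box P P').filter (fun x => dot b x + c ∈ Z) ⊆ Z.biUnion (fun y => (box P P').filter (fun x => dot b x = y - c)) := by
    intro x hx
    rw [mem_filter] at hx
    rw [mem_biUnion]
    exact ⟨dot b x + c, hx.2, by rw [mem_filter]; exact ⟨hx.1, by ring⟩⟩
  refine (card_le_card h1).trans (card_biUnion_le.trans ?_)
  refine (sum_le_card_nsmul _ _ (N ^ D) (fun y _ => box_fiber hP hb _)).trans ?_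
  rw [smul_eq_mul]

/-- MAIN -/
theorem main {D r : ℕ} {Λ : Fin r → Fin (D + 1) → ℤ} (h0 : ∀ i, Λ i ≠ 0) (hΛ : ∀ i j, i ≠ j → Indep (Λ i) (Λ j))
    (hsm : ∀ s : ℤ, (s = 1 ∨ s = -1) → Sm (r + 1) (Pool.Agent.W36.GU.Bal s)) {β : ℝ} (hβ : Dn Bdd β)
    {lam : Fin r → ℝ} (hl : ∀ i, 1 ≤ lam i) {ε : ℝ} (hε : 0 < ε) : ∃ K0 : ℕ, ∀ K : ℕ, K0 ≤ K →
    ∃ X0 : ℕ, ∀ S : Fin r → Set ℤ, (∀ i, Inv 1 (S i)) → (∀ i, ∀ n ∈ S i, 0 < n ∧ Bdd n.toNat) → ∀ δ : Fin r → ℝ,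
      (∀ i, Pool.Agent.H499R2.ND.HD 1 (S i) (δ i)) → ∀ X : ℕ, X0 ≤ X →
      ∀ c : Fin r → ℤ, ∀ M N : Fin r → ℕ, (∀ i, M i ≤ N i) → (∀ i, N i ≤ X) → ∀ P P' : Fin (D + 1) → ℤ, (∀ j, P' j - P j ≤ X) →
      |((open Classical in ((rg Λ c M N P P').filter (fun v => ∀ i, dot (Λ i) v + c i ∈ S i ∧ Ex (lam i) (dot (Λ i) v + c i))).card : ℕ) : ℝ) -
        (∏ i, δ i) * ((open Classical in ((rg Λ c M N P P').filter (fun v => Good Λ c K lam v)).card : ℕ) : ℝ)| ≤ ε * (X : ℝ) ^ (D + 1) := by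
  classical
  set ε1 : ℝ := ε / (2 * (r + 1)) with hε1
  have hε10 : 0 < ε1 := by positivity
  choose K1 hK1 using fun i => exc_small hβ (hl i) hε10
  refine ⟨∑ i, K1 i, fun K hK => ?_⟩
  have hKi : ∀ i, K1 i ≤ K := fun i => (single_le_sum (f := K1) (fun _ _ => Nat.zero_le _) (mem_univ i)).trans hK
  choose N1 hN1 using fun i => hK1 i K (hKi i)
  obtain ⟨X0, h⟩ := classes h0 hΛ hsm K (show 0 < ε / 2 by positivity)
  refine ⟨X0 + ∑ i, N1 i, fun S hS hSB δ hδ X hX c M N hM hN P P' hP => ?_⟩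
  have hNi : ∀ i, N1 i ≤ X := fun i => (single_le_sum (f := N1) (fun _ _ => Nat.zero_le _) (mem_univ i)).trans (by omega)
  have h1 := h S hS δ hδ X (by omega) lam c M N hM hN P P' hP
  set R := rg Λ c M N P P' with hR
  set A := R.filter (fun v => (∀ i, dot (Λ i) v + c i ∈ S i) ∧ Good Λ c K lam v) with hA
  set B := R.filter (fun v => ∀ i, dot (Λ i) v + c i ∈ S i ∧ Ex (lam i) (dot (Λ i) v + c i)) with hB
  -- the exceptional points
  set Z : Fin r → Finset ℤ := fun i => ((Icc 1 X).filter (BB K (lam i))).image (fun n : ℕ => (n : ℤ)) with hZ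
  have hZc : ∀ i, ((Z i).card : ℝ) ≤ ε1 * X := by
    intro i
    have h2 : ((Z i).card : ℝ) ≤ ((Icc 1 X).filter (BB K (lam i))).card := by exact_mod_cast card_image_le
    refine h2.trans ?_
    rw [← Pool.Agent.H499R2.ND.cnt_eq]
    exact hN1 i X (hNi i)
  have hBA : B ⊆ A := by
    intro v hv
    rw [hB, mem_filter] at hv
    rw [hA, mem_filter]
    refine ⟨hv.1, fun i => (hv.2 i).1, fun i => ?_⟩
    obtain ⟨g1, g2⟩ := (hv.2 i).2
    rw [AZ_nat g1]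
    exact AK_of_bound (hl i) (by omega) g2 K
  have hAB : A ⊆ B ∪ univ.biUnion (fun i => (box P P').filter (fun v => dot (Λ i) v + c i ∈ Z i)) := by
    intro v hv
    rw [hA, mem_filter] at hv
    obtain ⟨hvR, hvS, hvG⟩ := hv
    rw [mem_union]
    by_cases hex : ∀ i, Ex (lam i) (dot (Λ i) v + c i)
    · left
      rw [hB, mem_filter]
      exact ⟨hvR, fun i => ⟨hvS i, hex i⟩⟩
    · right
      push Not at hex
      obtain ⟨i, hi⟩ := hex
      obtain ⟨g1, g2⟩ := hSB i _ (hvS i)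
      have hvR' := mem_rg.1 hvR
      rw [mem_biUnion]
      refine ⟨i, mem_univ _, ?_⟩
      rw [mem_filter, mem_box]
      refine ⟨hvR'.1, ?_⟩
      rw [hZ]
      simp only
      rw [mem_image]
      refine ⟨(dot (Λ i) v + c i).toNat, ?_, by omega⟩
      rw [mem_filter, mem_Icc]
      have g3 := (hvR'.2 i).2
      have g4 : N i ≤ X := hN i
      refine ⟨⟨by omega, by omega⟩, ⟨(AZ_nat g1).1 (hvG i), g2⟩, fun g5 => hi ⟨g1, g5⟩⟩
  have c1 : (B.card : ℝ) ≤ A.card := by exact_mod_cast card_le_card hBA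
  have c2 : (A.card : ℝ) ≤ B.card + ∑ i, (((box P P').filter (fun v => dot (Λ i) v + c i ∈ Z i)).card : ℝ) := by
    have := (card_le_card hAB).trans ((card_union_le _ _).trans (Nat.add_le_add_left card_biUnion_le _))
    exact_mod_cast this
  have c3 : ∑ i, (((box P P').filter (fun v => dot (Λ i) v + c i ∈ Z i)).card : ℝ) ≤ ε / 2 * (X : ℝ) ^ (D + 1) := by
    have c4 : ∀ i ∈ (univ : Finset (Fin r)), (((box P P').filter (fun v => dot (Λ i) v + c i ∈ Z i)).card : ℝ) ≤ ε1 * (X : ℝ) ^ (D + 1) := by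
      intro i _
      have c5 : (((box P P').filter (fun v => dot (Λ i) v + c i ∈ Z i)).card : ℝ) ≤ (Z i).card * (X : ℝ) ^ D := by
        exact_mod_cast fib hP (h0 i) (c i) (Z i)
      refine c5.trans ?_
      calc ((Z i).card : ℝ) * (X : ℝ) ^ D ≤ ε1 * X * (X : ℝ) ^ D := mul_le_mul_of_nonneg_right (hZc i) (by positivity)
        _ = ε1 * (X : ℝ) ^ (D + 1) := by ring
    refine (sum_le_sum c4).trans ?_
    rw [sum_const, card_univ, Fintype.card_fin, nsmul_eq_mul, ← mul_assoc]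
    apply mul_le_mul_of_nonneg_right _ (by positivity)
    rw [hε1]
    have : (r : ℝ) * (ε / (2 * (r + 1))) = ε / 2 * (r / (r + 1)) := by field_simp
    rw [this]
    have h4 : (r : ℝ) / (r + 1) ≤ 1 := by rw [div_le_one (by positivity)]; linarith
    calc ε / 2 * ((r : ℝ) / (r + 1)) ≤ ε / 2 * 1 := mul_le_mul_of_nonneg_left h4 (by positivity)
      _ = ε / 2 := mul_one _
  rw [abs_le] at h1 ⊢
  constructor <;> linarith [h1.1, h1.2]

end Pool.Agent.TH465.EX
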