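import Mathlib
import Pool.Agent.TH465.EX.B

/-! Lower bounds for the number of safe points. -/

set_option autoImplicit false

namespace Pool.Agent.TH465.EX
open Finset Filter Topology
open Pool.Agent.W36.GK (dot box mem_box Indep Cn count Sm dot_add box_fiber box_edge)
open Pool.Agent.H499R2.ND (Tn Td Bdd Bdd_inv AK AK_mod AK_of_bound rK rK_ge rK_nonneg Dn Inv)

open Classical in
/-- residues along an arithmetic progression with odd difference -/
lemma res_count (K : ℕ) {lam : ℝ} (hl : 0 < lam) (n a : ℤ) (ha : Odd a) :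
    (((range (2 ^ K)).filter (fun t : ℕ => ¬ AZ K lam (n + t * a))).card : ℝ) ≤ 2 ^ K / lam := by
  set φ : ℕ → ℕ := fun t => ((n + t * a) % ((2 ^ K : ℕ) : ℤ)).toNat with hφ
  have hq : (0 : ℤ) < ((2 ^ K : ℕ) : ℤ) := by positivity
  have hco : IsCoprime a ((2 ^ K : ℕ) : ℤ) := by
    push_cast
    exact (Int.isCoprime_iff_gcd_eq_one.2 (by
      have h1 : Int.gcd a 2 = 1 := by
        rw [← Int.isCoprime_iff_gcd_eq_one]
        obtain ⟨k, hk⟩ := ha
        exact ⟨1, -k, by rw [hk]; ring⟩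
      exact h1)).pow_right
  have hinj : Set.InjOn φ (range (2 ^ K) : Set ℕ) := by
    intro t ht s hs h
    rw [mem_coe, mem_range] at ht hs
    simp only [hφ] at h
    have h1 := Int.emod_nonneg (n + t * a) hq.ne'
    have h2 := Int.emod_nonneg (n + s * a) hq.ne'
    have h3 : (n + t * a) % ((2 ^ K : ℕ) : ℤ) = (n + s * a) % ((2 ^ K : ℕ) : ℤ) := by omega
    have h4 : ((2 ^ K : ℕ) : ℤ) ∣ (n + t * a) - (n + s * a) := Int.ModEq.dvd (Int.ModEq.symm h3)
    have h5 : ((2 ^ K : ℕ) : ℤ) ∣ a * ((t : ℤ) - s) := by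
      have : (n + t * a) - (n + s * a) = a * ((t : ℤ) - s) := by ring
      rwa [this] at h4
    have h6 := hco.symm.dvd_of_dvd_mul_left h5
    have h7 : |((t : ℤ) - s)| < ((2 ^ K : ℕ) : ℤ) := by
      rw [abs_lt]
      have ht' : (t : ℤ) < ((2 ^ K : ℕ) : ℤ) := by exact_mod_cast ht
      have hs' : (s : ℤ) < ((2 ^ K : ℕ) : ℤ) := by exact_mod_cast hs
      constructor <;> linarith [Int.natCast_nonneg t, Int.natCast_nonneg s]
    have h8 := Int.eq_zero_of_abs_lt_dvd h6 h7
    omega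
  have himg : (range (2 ^ K)).image φ = range (2 ^ K) := by
    apply eq_of_subset_of_card_le
    · intro x hx
      rw [mem_image] at hx
      obtain ⟨t, _, rfl⟩ := hx
      rw [mem_range]
      simp only [hφ]
      have h1 := Int.emod_nonneg (n + t * a) hq.ne'
      have h2 := Int.emod_lt_of_pos (n + t * a) hq
      omega
    · rw [card_image_of_injOn hinj]
  have h1 : ((range (2 ^ K)).filter (fun t : ℕ => ¬ AZ K lam (n + t * a))).card =
      ((range (2 ^ K)).filter (fun t => ¬ AK K lam t)).card := by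
    have e : (range (2 ^ K)).filter (fun t => ¬ AK K lam t) =
        ((range (2 ^ K)).filter (fun t : ℕ => ¬ AZ K lam (n + t * a))).image φ := by
      conv_lhs => rw [← himg]
      rw [filter_image]
      rfl
    rw [e, card_image_of_injOn]
    intro t ht s hs h
    rw [mem_coe, mem_filter] at ht hs
    exact hinj (mem_coe.2 ht.1) (mem_coe.2 hs.1) h
  rw [h1]
  have h2 := card_filter_add_card_filter_not (s := range (2 ^ K)) (fun t => AK K lam t)
  rw [card_range] at h2
  have h3 : (((range (2 ^ K)).filter (AK K lam)).card : ℝ) = rK K lam * 2 ^ K := by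
    unfold rK
    field_simp
  have h4 := rK_ge hl K
  have h5 : (((range (2 ^ K)).filter (AK K lam)).card : ℝ) + ((range (2 ^ K)).filter (fun t => ¬ AK K lam t)).card = 2 ^ K := by
    exact_mod_cast h2
  have h6 : (1 - 1 / lam) * (2 : ℝ) ^ K ≤ rK K lam * 2 ^ K := mul_le_mul_of_nonneg_right h4 (by positivity)
  have h7 : (1 - 1 / lam) * (2 : ℝ) ^ K = 2 ^ K - 2 ^ K / lam := by ring
  linarith

open Classical in
/-- the boundary of the region -/
lemma edge {D r X : ℕ} {Λ : Fin r → Fin (D + 1) → ℤ} (h0 : ∀ i, Λ i ≠ 0) (c : Fin r → ℤ) (M N : Fin r → ℕ)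
    {P P' : Fin (D + 1) → ℤ} (hP : ∀ j, P' j - P j ≤ X) (w : Fin (D + 1) → ℤ) :
    ((rg Λ c M N P P').filter (fun u => u + w ∉ rg Λ c M N P P')).card ≤
      ((∑ j, (w j).natAbs) + ∑ i, 2 * (dot (Λ i) w).natAbs) * X ^ D := by
  set Z : Fin r → Finset ℤ := fun i => Ioc ((N i : ℤ) - (dot (Λ i) w).natAbs) (N i) ∪
    Ioc (M i : ℤ) ((M i : ℤ) + (dot (Λ i) w).natAbs) with hZ
  have hZc : ∀ i, (Z i).card ≤ 2 * (dot (Λ i) w).natAbs := by
    intro i
    rw [hZ]
    refine (card_union_le _ _).trans ?_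
    rw [Int.card_Ioc, Int.card_Ioc]
    omega
  have h1 : (rg Λ c M N P P').filter (fun u => u + w ∉ rg Λ c M N P P') ⊆
      (box P P').filter (fun x => x + w ∉ box P P') ∪
        univ.biUnion (fun i => (box P P').filter (fun v => dot (Λ i) v + c i ∈ Z i)) := by
    intro u hu
    rw [mem_filter] at hu
    obtain ⟨hu1, hu2⟩ := hu
    have hu1' := mem_rg.1 hu1
    rw [mem_union]
    by_cases hb : u + w ∈ box P P'
    · right
      have hb' := mem_box.1 hb
      have h3 : ∃ i, ¬ ((M i : ℤ) < dot (Λ i) (u + w) + c i ∧ dot (Λ i) (u + w) + c i ≤ N i) := by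
        by_contra hcon
        push Not at hcon
        exact hu2 (mem_rg.2 ⟨hb', fun i => ⟨(hcon i).1, (hcon i).2⟩⟩)
      obtain ⟨i, hi⟩ := h3
      rw [mem_biUnion]
      refine ⟨i, mem_univ _, ?_⟩
      rw [mem_filter, mem_box]
      refine ⟨hu1'.1, ?_⟩
      rw [dot_add] at hi
      have g := hu1'.2 i
      rw [hZ]
      simp only
      rw [mem_union, mem_Ioc, mem_Ioc]
      omega
    · left
      rw [mem_filter, mem_box]
      exact ⟨hu1'.1, hb⟩
  refine (card_le_card h1).trans ((card_union_le _ _).trans ?_)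
  rw [add_mul]
  apply Nat.add_le_add (box_edge hP w)
  refine card_biUnion_le.trans ?_
  rw [sum_mul]
  apply sum_le_sum
  intro i _
  exact (fib hP (h0 i) (c i) (Z i)).trans (Nat.mul_le_mul_right _ (hZc i))

open Classical in
/-- unsafe points -/
lemma unsafe_le {D r X : ℕ} {Λ : Fin r → Fin (D + 1) → ℤ} (h0 : ∀ i, Λ i ≠ 0) (c : Fin r → ℤ) (M N : Fin r → ℕ)
    {P P' : Fin (D + 1) → ℤ} (hP : ∀ j, P' j - P j ≤ X) (K : ℕ) {lam : ℝ} (hl : 0 < lam) (i : Fin r) (j : Fin (D + 1))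
    (hodd : Odd (Λ i j)) :
    (((rg Λ c M N P P').filter (fun v => ¬ AZ K lam (dot (Λ i) v + c i))).card : ℝ) ≤
      (rg Λ c M N P P').card / lam + 2 ^ K * (1 + ∑ l, 2 * ((Λ l j).natAbs : ℝ)) * (X : ℝ) ^ D := by
  set R := rg Λ c M N P P' with hR
  set e : Fin (D + 1) → ℤ := Pi.single j 1 with he
  have hdot : ∀ (a : Fin (D + 1) → ℤ) (t : ℤ), dot a (t • e) = t * a j := by
    intro a t
    unfold dot
    rw [sum_eq_single j]
    · simp [he, mul_comm]
    · intro b _ hb
      simp [he, hb]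
    · intro h; exact absurd (mem_univ j) h
  set U := R.filter (fun v => ¬ AZ K lam (dot (Λ i) v + c i)) with hU
  set V : ℕ → Finset (Fin (D + 1) → ℤ) := fun t => R.filter (fun v => ¬ AZ K lam (dot (Λ i) v + c i + t * Λ i j)) with hV
  set E : ℕ → Finset (Fin (D + 1) → ℤ) := fun t => R.filter (fun u => u + (-(t : ℤ)) • e ∉ R) with hE
  -- step 1
  have s1 : ∀ t, U.card ≤ (V t).card + (E t).card := by
    intro t
    have h1 : U ⊆ E t ∪ (V t).image (fun v => v + (t : ℤ) • e) := by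
      intro u hu
      rw [hU, mem_filter] at hu
      rw [mem_union]
      by_cases hb : u + (-(t : ℤ)) • e ∈ R
      · right
        rw [mem_image]
        refine ⟨u + (-(t : ℤ)) • e, ?_, ?_⟩
        · rw [hV]
          simp only
          rw [mem_filter]
          refine ⟨hb, ?_⟩
          rw [dot_add, hdot]
          have : dot (Λ i) u + -(t : ℤ) * Λ i j + c i + t * Λ i j = dot (Λ i) u + c i := by ring
          rw [this]
          exact hu.2
        · rw [add_assoc, ← add_smul, neg_add_cancel, zero_smul, add_zero]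
      · left
        rw [hE]
        simp only
        rw [mem_filter]
        exact ⟨hu.1, hb⟩
    have h2 := (card_le_card h1).trans (card_union_le _ _)
    have h3 : ((V t).image (fun v => v + (t : ℤ) • e)).card ≤ (V t).card := card_image_le
    omega
  -- step 2
  have s2 : ∑ t ∈ range (2 ^ K), ((V t).card : ℝ) ≤ R.card * (2 ^ K / lam) := by
    have h1 : ∑ t ∈ range (2 ^ K), ((V t).card : ℝ) =
        ∑ v ∈ R, (((range (2 ^ K)).filter (fun t : ℕ => ¬ AZ K lam (dot (Λ i) v + c i + t * Λ i j))).card : ℝ) := by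
      simp only [hV, card_filter]
      push_cast
      rw [sum_comm]
    rw [h1]
    calc _ ≤ ∑ v ∈ R, (2 : ℝ) ^ K / lam := sum_le_sum fun v _ => res_count K hl _ _ hodd
      _ = _ := by rw [sum_const, nsmul_eq_mul]
  -- step 3
  have s3 : ∀ t ∈ range (2 ^ K), ((E t).card : ℝ) ≤ 2 ^ K * (1 + ∑ l, 2 * ((Λ l j).natAbs : ℝ)) * (X : ℝ) ^ D := by
    intro t ht
    rw [mem_range] at ht
    have h1 := edge h0 c M N hP ((-(t : ℤ)) • e)
    have h2 : (∑ j', (((-(t : ℤ)) • e) j').natAbs) = t := by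
      rw [sum_eq_single j]
      · simp [he]
      · intro b _ hb
        simp [he, hb]
      · intro h; exact absurd (mem_univ j) h
    have h3 : ∀ l, (dot (Λ l) ((-(t : ℤ)) • e)).natAbs = t * (Λ l j).natAbs := by
      intro l
      rw [hdot, Int.natAbs_mul, Int.natAbs_neg, Int.natAbs_natCast]
    simp only [h3] at h1
    rw [h2] at h1
    have h4 : ((E t).card : ℝ) ≤ ((t : ℝ) + ∑ l, 2 * ((t : ℝ) * ((Λ l j).natAbs : ℝ))) * (X : ℝ) ^ D := by
      exact_mod_cast h1
    refine h4.trans ?_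
    apply mul_le_mul_of_nonneg_right _ (by positivity)
    have h5 : (t : ℝ) + ∑ l, 2 * ((t : ℝ) * ((Λ l j).natAbs : ℝ)) = t * (1 + ∑ l, 2 * ((Λ l j).natAbs : ℝ)) := by
      rw [mul_add, mul_one, mul_sum]
      congr 1
      apply sum_congr rfl
      intro l _; ring
    rw [h5]
    apply mul_le_mul_of_nonneg_right _ (by positivity)
    exact_mod_cast ht.le
  -- conclusion
  have hqp : (0 : ℝ) < 2 ^ K := by positivity
  have s4 : (2 : ℝ) ^ K * U.card ≤ ∑ t ∈ range (2 ^ K), (((V t).card : ℝ) + (E t).card) := by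
    have h1 : ∑ t ∈ range (2 ^ K), (U.card : ℝ) = 2 ^ K * U.card := by
      rw [sum_const, card_range, nsmul_eq_mul]; push_cast; ring
    rw [← h1]
    exact sum_le_sum fun t _ => by exact_mod_cast s1 t
  rw [sum_add_distrib] at s4
  have s5 : ∑ t ∈ range (2 ^ K), ((E t).card : ℝ) ≤ 2 ^ K * (2 ^ K * (1 + ∑ l, 2 * ((Λ l j).natAbs : ℝ)) * (X : ℝ) ^ D) := by
    refine (sum_le_sum s3).trans ?_
    rw [sum_const, card_range, nsmul_eq_mul]; push_cast; exact le_rfl
  have s6 : (2 : ℝ) ^ K * U.card ≤ 2 ^ K * (R.card / lam + 2 ^ K * (1 + ∑ l, 2 * ((Λ l j).natAbs : ℝ)) * (X : ℝ) ^ D) := by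
    have : (R.card : ℝ) * (2 ^ K / lam) = 2 ^ K * (R.card / lam) := by ring
    rw [mul_add]
    linarith
  exact le_of_mul_le_mul_left s6 hqp

open Classical in
/-- LOWER BOUND for the number of safe points -/
theorem safe_ge {D r : ℕ} {Λ : Fin r → Fin (D + 1) → ℤ} (h0 : ∀ i, Λ i ≠ 0) (hodd : ∀ i, ∃ j, Odd (Λ i j)) (K : ℕ)
    {lam : Fin r → ℝ} (hl : ∀ i, 1 ≤ lam i) {ε : ℝ} (hε : 0 < ε) : ∃ X0 : ℕ, ∀ X : ℕ, X0 ≤ X →
      ∀ c : Fin r → ℤ, ∀ M N : Fin r → ℕ, ∀ P P' : Fin (D + 1) → ℤ, (∀ j, P' j - P j ≤ X) →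
      (1 - ∑ i, 1 / lam i) * (rg Λ c M N P P').card - ε * (X : ℝ) ^ (D + 1) ≤
        ((rg Λ c M N P P').filter (fun v => Good Λ c K lam v)).card := by
  choose j hj using hodd
  set Q : ℝ := ∑ i, 2 ^ K * (1 + ∑ l, 2 * ((Λ l (j i)).natAbs : ℝ)) with hQ
  have hQ0 : 0 ≤ Q := by positivity
  obtain ⟨X0, hX0⟩ := exists_nat_ge (Q / ε)
  refine ⟨X0, fun X hX c M N P P' hP => ?_⟩
  set R := rg Λ c M N P P' with hR
  have h1 : R ⊆ R.filter (fun v => Good Λ c K lam v) ∪ univ.biUnion (fun i => R.filter (fun v => ¬ AZ K (lam i) (dot (Λ i) v + c i))) := by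
    intro v hv
    rw [mem_union]
    by_cases hg : Good Λ c K lam v
    · left; rw [mem_filter]; exact ⟨hv, hg⟩
    · right
      unfold Good at hg
      push Not at hg
      obtain ⟨i, hi⟩ := hg
      rw [mem_biUnion]
      exact ⟨i, mem_univ _, by rw [mem_filter]; exact ⟨hv, hi⟩⟩
  have h2 : (R.card : ℝ) ≤ (R.filter (fun v => Good Λ c K lam v)).card +
      ∑ i, ((R.filter (fun v => ¬ AZ K (lam i) (dot (Λ i) v + c i))).card : ℝ) := by
    have := (card_le_card h1).trans ((card_union_le _ _).trans (Nat.add_le_add_left card_biUnion_le _))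
    exact_mod_cast this
  have h3 : ∑ i, ((R.filter (fun v => ¬ AZ K (lam i) (dot (Λ i) v + c i))).card : ℝ) ≤
      ∑ i, ((R.card : ℝ) / lam i + 2 ^ K * (1 + ∑ l, 2 * ((Λ l (j i)).natAbs : ℝ)) * (X : ℝ) ^ D) :=
    sum_le_sum fun i _ => unsafe_le h0 c M N hP K (by linarith [hl i]) i (j i) (hj i)
  rw [sum_add_distrib, ← sum_mul, ← hQ] at h3
  have h4 : ∑ i, (R.card : ℝ) / lam i = (∑ i, 1 / lam i) * R.card := by
    rw [sum_mul]
    apply sum_congr rfl
    intro i _; ring
  rw [h4] at h3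
  have h5 : Q * (X : ℝ) ^ D ≤ ε * (X : ℝ) ^ (D + 1) := by
    have h6 : Q / ε ≤ X := hX0.trans (by exact_mod_cast hX)
    rw [div_le_iff₀ hε] at h6
    calc Q * (X : ℝ) ^ D ≤ X * ε * (X : ℝ) ^ D := mul_le_mul_of_nonneg_right h6 (by positivity)
      _ = _ := by ring
  linarith

end Pool.Agent.TH465.EX
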